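import Pool.Agent.H539R3.IEP.Undec
import Pool.Agent.H539R3.IEP.Dec

/-!
# A decidable extension of GL with undecidable interpolant existence problem

The logic is given by finite frames: the chains `0 < 1 < … < N` and, for some pairs `(m, N)` with
`m + 2 ≤ N`, the chain `0 < … < N` with one more world which is seen by the root `N` only and sees
`0, …, m - 1`. All pairs with `m ≡ 2 (mod 3)` are allowed; the pair `(3 e, N)` is allowed if `N` is
even and machine `e` does not stop within `N` steps on input `0`, and `(3 e + 1, N)` is allowed
if `N` is odd and machine `e` does not stop within `N` steps.

The logic is decidable since countermodels can be shrunk inside the class (long lower parts can be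
brought to length `≡ 2 (mod 3)`, long upper parts can be shortened by two). A formula `φ` with
variable `p_0` forces the frame `(3 e, N)` and a formula `ψ'` with variable `p_1` forces
`(3 e + 1, N)`. An interpolant for `φ → ¬ ψ'` is a letterless formula separating the even from the
odd lengths `N` up to the halting time of machine `e`; it exists if and only if machine `e` stops.
-/

set_option autoImplicit false

namespace Pool.Agent.Results.MP_400b40_lc.UndecidableIEP

open H539R3.IEP

/-- **There is a decidable normal modal logic extending `GL` whose interpolant existence problem
is undecidable.** -/
theorem result : ∃ L : Set Form, Normal L ∧ LogicGL ⊆ L ∧ DecidableLogic L ∧ ¬ DecidableIEP L :=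
  ⟨Lg, Lg_normal, GL_subset, decidableLogic_Lg, not_decidableIEP⟩

end Pool.Agent.Results.MP_400b40_lc.UndecidableIEP
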